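import Mathlib
import Pool.Agent.V1148.VT4

/-!
# The minimum degree of a variant of `T_n` depends on more than `n` and the rank

For `n = 2 ^ 64` there are two maps `a`, `b` of rank 2 (the kernel of `a` has classes of sizes
`n - 1` and `1`, that of `b` two classes of size `n / 2`) such that the variant of `T_n` given
by `a` embeds in a smaller full transformation monoid than the variant given by `b`.
-/

namespace Pool.Agent.Results.MP_6b192e_al.RankTwoKernels

open Pool.Agent.V1148.VT

/-- The variant `T_n^a`: the maps from `Fin n` to `Fin n`. -/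
def Variant {n : ℕ} (_a : Fin n → Fin n) : Type := Fin n → Fin n

/-- The sandwich product `x ⋆ y = x a y`. -/
instance {n : ℕ} (a : Fin n → Fin n) : Semigroup (Variant a) where
  mul x y := (x ∘ a ∘ y : Fin n → Fin n)
  mul_assoc _ _ _ := rfl

/-- The minimum (transformation) degree of a semigroup: the least `m ≥ 1` such that there is an
injective semigroup homomorphism from `S` to the full transformation monoid of `Fin m`. -/
noncomputable def minDegree (S : Type) [Semigroup S] : ℕ :=
  sInf {m : ℕ | 1 ≤ m ∧ ∃ φ : S →ₙ* Function.End (Fin m), Function.Injective φ}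

/-- The rank of a map: the size of its image. -/
def rank {n : ℕ} (a : Fin n → Fin n) : ℕ := (Finset.univ.image a).card

lemma exists_iff {n : ℕ} (a : Fin n → Fin n) (m : ℕ) :
    (∃ φ : Variant a →ₙ* Function.End (Fin m), Function.Injective φ) ↔
      ∃ φ : (Fin n → Fin n) → (Fin m → Fin m),
        Function.Injective φ ∧ ∀ x y, φ (x ∘ a ∘ y) = φ x ∘ φ y := by
  constructor
  · rintro ⟨φ, hφ⟩
    exact ⟨fun x => φ (x : Variant a), hφ, fun x y => φ.map_mul (x : Variant a) (y : Variant a)⟩
  · rintro ⟨φ, hφ, hm⟩
    exact ⟨{ toFun := fun x => φ x, map_mul' := fun x y => hm x y }, hφ⟩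

lemma main (n h : ℕ) (hn : n = 2 ^ 64) (hh : h = 2 ^ 63) :
    ∃ a b : Fin n → Fin n, rank a = 2 ∧ rank b = 2 ∧
      (∃ i, ∀ j k, a j = a k ↔ (j = i ↔ k = i)) ∧
      (∀ j, (Finset.univ.filter (fun k => b k = b j)).card = n / 2) ∧
      minDegree (Variant a) < minDegree (Variant b) := by
  have hn2 : n = h + h := by rw [hn, hh]; norm_num
  have hpos : 0 < h := by rw [hh]; norm_num
  subst hn2
  set p : Fin (h + h) := ⟨0, by omega⟩ with hp
  set q : Fin (h + h) := ⟨h, by omega⟩ with hq
  have hpq : p ≠ q := by
    intro e
    have := congrArg Fin.val e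
    simp only [hp, hq] at this
    omega
  set b : Fin (h + h) → Fin (h + h) := fun i => if i.val < h then p else q with hb
  have hbp : b p = p := by simp only [hb, hp, if_pos hpos]
  have hbq : b q = q := by simp [hb, hq]
  have hbv : ∀ i, b i = p ∨ b i = q := by
    intro i
    by_cases hi : i.val < h
    · left; simp only [hb, if_pos hi]
    · right; simp only [hb, if_neg hi]
  have hA : (Finset.univ.filter (fun i => b i = p)).card = h := by
    have : (Finset.univ.filter (fun i => b i = p)) =
        (Finset.univ.filter (fun i : Fin (h + h) => i.val < h)) := by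
      ext i
      simp only [Finset.mem_filter, Finset.mem_univ, true_and]
      by_cases hi : i.val < h
      · simp only [hb, if_pos hi, hi]
      · simp only [hb, if_neg hi, hi, iff_false]
        exact hpq.symm
    rw [this, card_lt_half]
  have hB : (Finset.univ.filter (fun i => b i = q)).card = h := by
    have h1 := Finset.card_filter_add_card_filter_not (s := (Finset.univ : Finset (Fin (h + h))))
      (fun i => b i = p)
    rw [hA, Finset.card_univ, Fintype.card_fin] at h1
    have : (Finset.univ.filter (fun i => b i = q)) = (Finset.univ.filter (fun i => ¬ b i = p)) := by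
      ext i
      simp only [Finset.mem_filter, Finset.mem_univ, true_and]
      constructor
      · intro h2; rw [h2]; exact hpq.symm
      · intro h2; exact (hbv i).resolve_left h2
    rw [this]; omega
  refine ⟨av p q, b, ?_, ?_, ?_, ?_, ?_⟩
  · have : Finset.univ.image (av p q) = {p, q} := by
      ext i
      simp only [Finset.mem_image, Finset.mem_univ, true_and, Finset.mem_insert,
        Finset.mem_singleton]
      constructor
      · rintro ⟨j, rfl⟩; exact av_eq_or j
      · rintro (rfl | rfl)
        · exact ⟨p, av_ne hpq⟩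
        · exact ⟨q, av_q⟩
    unfold rank
    rw [this, Finset.card_pair hpq]
  · have : Finset.univ.image b = {p, q} := by
      ext i
      simp only [Finset.mem_image, Finset.mem_univ, true_and, Finset.mem_insert,
        Finset.mem_singleton]
      constructor
      · rintro ⟨j, rfl⟩; exact hbv j
      · rintro (rfl | rfl)
        · exact ⟨p, hbp⟩
        · exact ⟨q, hbq⟩
    unfold rank
    rw [this, Finset.card_pair hpq]
  · refine ⟨q, fun j k => ?_⟩
    by_cases hj : j = q
    · by_cases hk : k = q
      · simp [hj, hk]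
      · simp [av, hj, hk, hpq.symm]
    · by_cases hk : k = q
      · simp [av, hj, hk, hpq]
      · simp [av, hj, hk]
  · intro j
    have e : (h + h) / 2 = h := by omega
    rw [e]
    rcases hbv j with h1 | h1
    · rw [h1]; exact hA
    · rw [h1]; exact hB
  · have hmem : minDegree (Variant b) ∈
        {m : ℕ | 1 ≤ m ∧ ∃ φ : Variant b →ₙ* Function.End (Fin m), Function.Injective φ} := by
      apply Nat.sInf_mem
      exact ⟨(h + h) + (h + h), by omega, (exists_iff b _).mpr (embeds b)⟩
    obtain ⟨_, hφ⟩ := hmem
    obtain ⟨φ, hinj, hhom⟩ := (exists_iff b _).mp hφ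
    obtain ⟨s, c, k, hm, h1, h2, h3⟩ := lower b p q hpq hbp hbq hbv h hA hB φ hinj hhom
    obtain ⟨ζ, κ, g1, g2, g3, g4⟩ := arith (h + h) h s c k _ hn hh hm h1 h2 h3
    have hup := upper (p := p) (q := q) ⟨h, rfl⟩ hpq ζ κ 32 g1 g2 g3 (by norm_num)
      (by rw [hn]; norm_num)
    have hle : minDegree (Variant (av p q)) ≤ ζ + κ + 2 + 6 * 32 := by
      apply Nat.sInf_le
      exact ⟨by omega, (exists_iff (av p q) _).mpr hup⟩
    omega

/-- There is an `n` (namely `n = 2 ^ 64`) and maps `a`, `b` of rank 2 in `T_n`, the kernel of `a`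
having classes of sizes `n - 1` and `1` and that of `b` two classes of size `n / 2`, with
`μ(T_n^a) < μ(T_n^b)`. -/
theorem result : ∃ n : ℕ, n = 2 ^ 64 ∧ ∃ a b : Fin n → Fin n, rank a = 2 ∧ rank b = 2 ∧
      (∃ i, ∀ j k, a j = a k ↔ (j = i ↔ k = i)) ∧
      (∀ j, (Finset.univ.filter (fun k => b k = b j)).card = n / 2) ∧
      minDegree (Variant a) < minDegree (Variant b) :=
  ⟨2 ^ 64, rfl, main _ (2 ^ 63) rfl rfl⟩

end Pool.Agent.Results.MP_6b192e_al.RankTwoKernels
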